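import Pool.Agent.H73.CTG.Stmts

/-!
# Board `ctg`, row ITE: iterates
-/

set_option autoImplicit false

open Set Filter Topology

namespace Pool.CTG

theorem ITE_thm (h1 : LVTStmt) (h2 : UMPStmt) : ITEStmt := by
  intro n f d G hf k
  induction k with
  | zero =>
    refine ⟨contDiff_id, mapsTo_id _, fun z hz => hz, fun z _ => ?_⟩
    have e : fderiv ℂ (f^[0]) z = ContinuousLinearMap.id ℂ (E n) := by
      rw [Function.iterate_zero]
      exact fderiv_id
    rw [e]
    refine ⟨Function.bijective_id, fun v => ?_⟩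
    simp only [Function.iterate_zero, id_eq, ContinuousLinearMap.coe_id', pow_zero, one_mul,
      and_self]
  | succ k ih =>
    obtain ⟨ic, im, iz, iu⟩ := ih
    have e0 : f^[k + 1] = f ∘ f^[k] := Function.iterate_succ' f k
    have hd1 : Differentiable ℂ f := hf.cd.differentiable (by norm_num)
    have hd2 : Differentiable ℂ (f^[k]) := ic.differentiable (by norm_num)
    refine ⟨?_, ?_, fun z hz => ?_, fun z hz => ?_⟩
    · rw [e0]
      exact hf.cd.comp ic
    · rw [e0]
      exact (h2 n f d G hf).1.comp im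
    · rw [e0]
      exact hf.nz _ (iz z hz)
    · have e1 : fderiv ℂ (f^[k + 1]) z = (fderiv ℂ f (f^[k] z)).comp (fderiv ℂ (f^[k]) z) := by
        rw [e0]
        exact fderiv_comp z (hd1 _) (hd2 z)
      have e2 : f^[k + 1] z = f (f^[k] z) := by rw [e0]; rfl
      have hz0 : f^[k] z ≠ 0 := iz z hz.1
      obtain ⟨ib, iv⟩ := iu z hz
      rw [e1, e2]
      refine ⟨?_, fun v => ?_⟩
      · exact ((h2 n f d G hf).2 (f^[k] z) (im hz)).comp ib
      · obtain ⟨h3, h4⟩ := h1 n f d G hf (f^[k] z) (fderiv ℂ (f^[k]) z v) hz0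
        obtain ⟨h5, h6⟩ := iv v
        rw [ContinuousLinearMap.comp_apply, h3, h4, h5, h6, pow_succ]
        constructor <;> ring

end Pool.CTG
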